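import Pool.Agent.Q166.CS.Per

/-!
# The polynomial Freiman-Ruzsa conjecture in the integers for sets with a companion of slow growth

Q1's conclusion holds (with constants depending on `k` and `C` only) for every finite set `A` of integers that has a
companion: a set `B` with `|B| ≤ K^C |A|`, `|A + B| ≤ K^C |B|` whose `n`-fold sumset has at most `K^C |B|` elements for
some `n ≥ (log K)^(1/k)`, `n ≥ 2`. In particular it holds for every `A` with `|A + A| ≤ K |A|` for which some nonzero
real function `g` supported on `l A - m A` has at least `K^(-C) |A|` almost periods `x` of precision `1 / n`,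
`‖g(· + x) - g‖₁ ≤ (1/n) ‖g‖₁`: sums of `n` almost periods are differences of the support of `g`.

The case `B = A` of the first part is the starting result `MP_dd2a7c_co.IteratedSumsets` (in any abelian group), which
is applied to (a part of) `B`; `A` is then covered with the covering lemma of Ruzsa and the covering of the doubled
convex body by `64^d` translates (`Y806.DF`).
-/

set_option autoImplicit false

open scoped Pointwise

namespace Pool.Agent.Results.MP_626a77_co.CompanionSets

open Pool.Agent.Q166.CS Pool.Agent.TH513.IS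

/-- The conclusion of Q1 for the set `A` with the constants `E`: `A` is covered by at most `E K^E` translates of the image
under a linear form `v` of the integer points of a symmetric convex body `D` of dimension at most `E log K` with at most
`|A|` integer points. -/
def Covered (E : ℕ) (K : ℝ) (A : Finset ℤ) : Prop :=
  ∃ (d : ℕ) (D : Set (Fin d → ℝ)) (v : Fin d → ℤ) (T : Finset ℤ),
    (d : ℝ) ≤ E * Real.log K ∧
    Convex ℝ D ∧ IsCompact D ∧ (interior D).Nonempty ∧ (∀ x ∈ D, -x ∈ D) ∧
    {x : Fin d → ℤ | (fun i => (x i : ℝ)) ∈ D}.ncard ≤ A.card ∧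
    (T.card : ℝ) ≤ E * K ^ E ∧
    ∀ a ∈ A, ∃ t ∈ T, ∃ x : Fin d → ℤ, (fun i => (x i : ℝ)) ∈ D ∧ a = t + ∑ i, v i * x i

theorem sm_subset (B : Finset ℤ) (n : ℕ) : sm B n ⊆ n • B := by
  intro x hx
  rw [mem_sm] at hx
  obtain ⟨f, hf, rfl⟩ := hx
  rw [Finset.mem_nsmul]
  exact ⟨fun i => ⟨f i, hf i⟩, by rw [List.sum_ofFn]⟩

/-- **Result.** -/
theorem result : ∀ k C l m : ℕ, ∃ E : ℕ, ∀ (K : ℝ) (A : Finset ℤ) (n : ℕ), 2 ≤ K → A.Nonempty → 2 ≤ n →
    Real.log K ≤ (n : ℝ) ^ k →
    -- a companion of slow growth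
    (∀ B : Finset ℤ, B.Nonempty → (B.card : ℝ) ≤ K ^ C * A.card → ((A + B).card : ℝ) ≤ K ^ C * B.card →
      ((n • B).card : ℝ) ≤ K ^ C * B.card → Covered E K A) ∧
    -- many almost periods
    (((A + A).card : ℝ) ≤ K * A.card → ∀ g : ℤ →₀ ℝ, g ≠ 0 → g.support ⊆ l • A - m • A →
      ∀ T : Finset ℤ, (A.card : ℝ) ≤ K ^ C * T.card →
      (∀ x ∈ T, ∑' z, |g (z + x) - g z| ≤ 1 / (n : ℝ) * ∑' z, |g z|) → Covered E K A) := by
  intro k C l m
  refine ⟨EE k (C + 2 * (l + m) + 1), fun K A n hK hA hn hkn => ⟨?_, ?_⟩⟩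
  · intro B hB h1 h2 h3
    have hK1 : 1 ≤ K := by linarith
    have hpow : K ^ C ≤ K ^ (C + 2 * (l + m) + 1) := pow_le_pow_right₀ hK1 (by omega)
    have h4 : ((sm B n).card : ℝ) ≤ (n • B).card := by
      exact_mod_cast Finset.card_le_card (sm_subset B n)
    exact coreZ k (C + 2 * (l + m) + 1) K hK A B hA hB n hn hkn
      (h1.trans (mul_le_mul_of_nonneg_right hpow (Nat.cast_nonneg _)))
      (h2.trans (mul_le_mul_of_nonneg_right hpow (Nat.cast_nonneg _)))
      (h4.trans (h3.trans (mul_le_mul_of_nonneg_right hpow (Nat.cast_nonneg _))))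
  · intro hAA g hg hS T hTA hT
    obtain ⟨h1, h2, h3⟩ := periods_comp hA (by linarith) hAA l m C g hg hS n (by omega) T hTA hT
    have hTne : T.Nonempty := by
      rw [Finset.nonempty_iff_ne_empty]
      rintro rfl
      have : (0 : ℝ) < A.card := by exact_mod_cast hA.card_pos
      simp at hTA
      rw [hTA] at hA
      exact Finset.not_nonempty_empty hA
    exact coreZ k (C + 2 * (l + m) + 1) K hK A T hA hTne n hn hkn h1 h2 h3

end Pool.Agent.Results.MP_626a77_co.CompanionSets
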