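import Pool.Agent.Q285.FinMod.F

/-!
# Sets of small doubling in the integers are dense subsets of boxes of logarithmic dimension

`PFRZ` is Q1 of the problem; `BoxPFR ε` is the same statement for the sets `A` in a box
`∏ [-N_i, N_i]` of `ℤ^k`, `k ≤ (30000/ε) log 2K`, with at most `exp (8000000 ε⁻² (log 2K)^(1+ε)) |A|`
points. Both are defined in `Pool.Agent.Q285.FinMod`.

Proof of (1). `A` is covered by polynomially many translates of a (not necessarily proper) generalised
progression `{∑ c_i v_i : |c_i| ≤ L_i}` of rank `O(log 2K)` and quasi-polynomial volume. Take for each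
element of the popular translate the coefficient vector which is shortest for `∑ (c_i / L_i)²`; it is
in the Voronoi cell `V` of the lattice of the relations between the `v_i`, which is covered by `256^k`
translates of `V / 4`, and on each of these the relations play no role for sums of two elements.
-/

set_option autoImplicit false

namespace Pool.Agent.Results.MP_626a77_co.DenseInBoxes

open Finset
open scoped Pointwise
open Pool.Agent.Y806.DF
open Pool.Agent.Q285.FinMod

/-- For every `ε ∈ (0, 1]`:

(1) In the integers, and in every torsion-free abelian group, each finite nonempty set `A` with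
`|A + A| ≤ K |A|` has a subset `A'` with `|A| ≤ (2K)^(200000/ε) |A'|` and an affine parametrisation
`a = t + ∑ x_i(a) v_i` of `A'` such that `x` is a Freiman isomorphism (of order 2) of `A'` with a
subset of the box `∏ [-N_i, N_i] ⊆ ℤ^k`, where `k ≤ (30000/ε) log 2K` and the box has at most
`exp (8000000 ε⁻² (log 2K)^(1+ε)) |A'|` points.

(2) The polynomial Freiman-Ruzsa conjecture in the integers (Q1) follows from its special case for
such dense subsets of boxes. -/
theorem result (ε : ℝ) (hε0 : 0 < ε) (hε1 : ε ≤ 1) :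
    (∀ (Γ : Type*) [AddCommGroup Γ] [DecidableEq Γ],
      (∀ (n : ℕ) (x : Γ), n ≠ 0 → n • x = 0 → x = 0) →
      ∀ (K : ℝ) (A : Finset Γ), A.Nonempty → ((A + A).card : ℝ) ≤ K * A.card →
      ∃ A' ⊆ A, (A.card : ℝ) ≤ (2 * K) ^ (200000 / ε) * A'.card ∧
        ∃ (k : ℕ) (N : Fin k → ℕ) (v : Fin k → Γ) (t : Γ) (x : Γ → Fin k → ℤ),
          (k : ℝ) ≤ 30000 / ε * Real.log (2 * K) ∧
          ((∏ i, (2 * N i + 1) : ℕ) : ℝ) ≤
            Real.exp (8000000 / ε ^ 2 * Real.log (2 * K) ^ (1 + ε)) * A'.card ∧
          (∀ a ∈ A', a = t + ∑ i, x a i • v i ∧ ∀ i, |x a i| ≤ N i) ∧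
          IsAddFreimanIso 2 (A' : Set Γ) (x '' (A' : Set Γ)) x) ∧
    (BoxPFR ε → PFRZ) := by
  refine ⟨?_, box_imp hε0 hε1⟩
  intro Γ _ _ htf K A hA hK
  obtain ⟨A', hsub, -, hAA', k, N, v, t, x, hk, hvol, hrep, hfr⟩ := lift_tf htf hA hK hε0 hε1
  refine ⟨A', hsub, hAA', k, N, v, t, x, hk, hvol, hrep, ?_⟩
  rw [isAddFreimanIso_two]
  have hinj : Set.InjOn x (A' : Set Γ) := by
    intro b hb c hc h
    have h1 := (hfr b hb b hb c hc b hb).1 (by rw [h])
    exact add_right_cancel h1
  exact ⟨hinj.bijOn_image, fun a ha b hb c hc d hd => hfr a ha b hb c hc d hd⟩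

end Pool.Agent.Results.MP_626a77_co.DenseInBoxes
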