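import Pool.Agent.Q288.FR.Int

/-!
# The polynomial Freiman-Ruzsa conjecture in the integers: the bound for the dimension comes for free

`pts B` are the integer points of `B`, `lin v x = ∑ v i * x i`, `SymBody B`: `B` is a centrally
symmetric convex body, `Covered B v T A`: `A` is covered by the translates by `T` of the convex
progression `lin v (pts B)`.

`Part K A X v g`: `X` is a nonempty finite set of integer points of `ℝ ^ d`, of ANY dimension `d`, with
`|X + X| ≤ K |X|`, whose convex hull has at most `K |X|` integer points, `|X| ≤ K |A|`, and at least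
`|A| / K` elements of `A` are in `g + lin v (X)`.

`BodyPart K A B v g`: `B` is a symmetric convex body of ANY dimension such that `2 B` has at most `K`
times as many integer points as `B`, `B` has at most `K |A|` integer points, and at least `|A| / K`
elements of `A` are in `g + lin v (pts B)`.

`FreeSet` and `FreeBody`: for some `C` every finite nonempty set `A` of integers with
`|A + A| ≤ K |A|` has such an `X`, or such a `B`, with `C K ^ C` in place of `K`.
-/

set_option autoImplicit false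

namespace Pool.Agent.Results.MP_626a77_co.DimensionFree

open Pool.Agent.Q288.FR
open scoped Pointwise

/-- (1) If a finite set `A` of integers with `|A + A| ≤ K |A|` has a large intersection with the image
of a set `X` of integer points of any dimension, of small doubling and dense in its convex hull, then
the conclusion of Q1 holds: `A` is covered by `5000 K ^ 5000` translates of a centred convex progression
of dimension at most `500 log (2 K)` and volume at most `|A|`.
(2) Q1, in the form of the frozen statement S09165, is equivalent to each of the two forms `FreeSet`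
and `FreeBody`, in which there is no bound for the dimension. -/
theorem result :
    (∀ (K : ℝ) (A : Finset ℤ), A.Nonempty → ((A + A).card : ℝ) ≤ K * A.card →
      ∀ (d : ℕ) (X : Finset (Fin d → ℤ)) (v : Fin d → ℤ) (g : ℤ), Part K A X v g →
        ∃ (r : ℕ) (B : Set (Fin r → ℝ)) (u : Fin r → ℤ) (T : Finset ℤ),
          (r : ℝ) ≤ 500 * Real.log (2 * K) ∧ SymBody B ∧ (pts B).ncard ≤ A.card ∧
          (T.card : ℝ) ≤ 5000 * K ^ 5000 ∧ Covered B u T A) ∧
    ((∃ C : ℝ, 0 < C ∧ ∀ (K : ℝ) (A : Finset ℤ), A.Nonempty →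
      (((A + A).card : ℝ) ≤ K * (A.card : ℝ)) →
      ∃ (d : ℕ) (B : Set (Fin d → ℝ)) (v : Fin d → ℤ) (T : Finset ℤ),
        (d : ℝ) ≤ C * (1 + Real.log K) ∧
        Convex ℝ B ∧ IsCompact B ∧ (interior B).Nonempty ∧ (∀ x ∈ B, -x ∈ B) ∧
        ({x : Fin d → ℤ | (fun i => (x i : ℝ)) ∈ B}.ncard ≤ A.card) ∧
        ((T.card : ℝ) ≤ C * K ^ C) ∧
        ∀ a ∈ A, ∃ t ∈ T, ∃ x : Fin d → ℤ,
          (fun i => (x i : ℝ)) ∈ B ∧ a = t + ∑ i, v i * x i) ↔ FreeSet) ∧
    (FreeSet ↔ FreeBody) := by
  have hQ : (∃ C : ℝ, 0 < C ∧ ∀ (K : ℝ) (A : Finset ℤ), A.Nonempty →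
      (((A + A).card : ℝ) ≤ K * (A.card : ℝ)) →
      ∃ (d : ℕ) (B : Set (Fin d → ℝ)) (v : Fin d → ℤ) (T : Finset ℤ),
        (d : ℝ) ≤ C * (1 + Real.log K) ∧
        Convex ℝ B ∧ IsCompact B ∧ (interior B).Nonempty ∧ (∀ x ∈ B, -x ∈ B) ∧
        ({x : Fin d → ℤ | (fun i => (x i : ℝ)) ∈ B}.ncard ≤ A.card) ∧
        ((T.card : ℝ) ≤ C * K ^ C) ∧
        ∀ a ∈ A, ∃ t ∈ T, ∃ x : Fin d → ℤ,
          (fun i => (x i : ℝ)) ∈ B ∧ a = t + ∑ i, v i * x i) ↔ PFRInt := by
    constructor
    · rintro ⟨C, hC, h⟩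
      refine ⟨C, hC, fun K A hA hK => ?_⟩
      obtain ⟨d, B, v, T, h1, h2, h3, h4, h5, h6, h7, h8⟩ := h K A hA hK
      exact ⟨d, B, v, T, h1, ⟨h2, h3, h4, h5⟩, h6, h7, h8⟩
    · rintro ⟨C, hC, h⟩
      refine ⟨C, hC, fun K A hA hK => ?_⟩
      obtain ⟨d, B, v, T, h1, ⟨h2, h3, h4, h5⟩, h6, h7, h8⟩ := h K A hA hK
      exact ⟨d, B, v, T, h1, h2, h3, h4, h5, h6, h7, h8⟩
  refine ⟨fun K A hA hK d X v g h => one_set hA hK h, hQ.trans ⟨?_, free_pfr⟩, ?_, body_set⟩
  · exact fun h => body_set (pfr_body h)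
  · exact fun h => pfr_body (free_pfr h)

end Pool.Agent.Results.MP_626a77_co.DimensionFree
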